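import Pool.Agent.H515.RD.Fin2

/-!
# Class number relations modulo decomposition groups

Let `F / k` be a finite Galois extension of number fields, `T / k` a Galois extension of degree a power
of the odd prime `p`, `p ∤ [F : k]`, and let `K_i` be fields between `k` and `F` and `a_i` integers
with sum zero. Assume that the `p`-part of the class group of `F` is generated by classes which are
fixed by the Galois group or by the decomposition group of a prime ramified in `T` (for example
`p ∤ h(F)`). If the combination `∑ a_i [Hom_k(K_i, F)]` of the permutation characters is killed by the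
sum of the elements of the decomposition group of each prime which ramifies in `T`, then
`∑ a_i v_p(#Cl(K_i T)[p^e]) = 0` for all `e`. The `p`-part of the class group of `F T` is generated by
classes which are fixed by `Gal(FT / T)` or by a decomposition group.

For `k = ℚ` this holds for almost all primes `p` with a Frobenius element whose powers kill the
combination; the layers of the cyclotomic `ℤ_p`-extension are an example of `T`.
-/

set_option autoImplicit false

namespace Pool.Agent.Results.MP_a4986b_nt.DecompositionRelations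

open NumberField IsDedekindDomain Filter Topology

/-- `w` is a prime of `F` such that the prime of `k` below `w` is ramified in `T`. -/
def RamBelow (k T : Type) {F : Type} [Field k] [NumberField k] [Field T] [NumberField T] [Field F]
    [NumberField F] [Algebra k T] [Algebra k F] (w : HeightOneSpectrum (𝓞 F)) : Prop :=
  ∃ u : HeightOneSpectrum (𝓞 T), u.asIdeal.comap (algebraMap (𝓞 k) (𝓞 T)) =
      w.asIdeal.comap (algebraMap (𝓞 k) (𝓞 F)) ∧
    (w.asIdeal.comap (algebraMap (𝓞 k) (𝓞 F))).map (algebraMap (𝓞 k) (𝓞 T)) ≤ u.asIdeal ^ 2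

/-- The automorphism `g` of `F` maps the prime `w` to itself. -/
def Dec {F : Type} [Field F] [NumberField F] (w : HeightOneSpectrum (𝓞 F)) (g : F →+* F) : Prop :=
  Ideal.map (RingOfIntegers.mapRingHom g) w.asIdeal = w.asIdeal

/-- The automorphism `g` of `M` fixes the ideal class `c`. -/
def Fixes {M : Type} [Field M] [NumberField M] (g : M →+* M) (c : ClassGroup (𝓞 M)) : Prop :=
  ∀ I J : nonZeroDivisors (Ideal (𝓞 M)),
    (J : Ideal (𝓞 M)) = Ideal.map (RingOfIntegers.mapRingHom g) I →
      ClassGroup.mk0 I = c → ClassGroup.mk0 J = c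

/-- The number of the pairs `(σ, d)` of a `k`-embedding `σ : K → F` and an element `d` of the
decomposition group of `w` in `Gal(F / k)` such that `x ∘ d ∘ σ = σ`. -/
noncomputable def pairs {k F : Type} (K : Type) [Field k] [Field K] [Field F] [NumberField F]
    [Algebra k K] [Algebra k F] (w : HeightOneSpectrum (𝓞 F)) (x : F ≃ₐ[k] F) : ℤ :=
  (Nat.card {z : (K →ₐ[k] F) × (F ≃ₐ[k] F) //
    Dec w (z.2 : F →+* F) ∧ ∀ y, x (z.2 (z.1 y)) = z.1 y} : ℤ)

/-- The `p`-part of the class group of `M` is generated by the classes which are fixed by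
`Gal(M / N)`, and the classes which are fixed by all `g` in `Gal(M / N)` whose restriction `h` to `F`
is in the decomposition group of a given prime `w` of `F` above a prime of `k` ramified in `T`. -/
def Gen (p : ℕ) (k T F N M : Type) [Field k] [NumberField k] [Field T] [NumberField T] [Field F]
    [NumberField F] [Field N] [Field M] [NumberField M] [Algebra k T] [Algebra k F] [Algebra N M]
    [Algebra F M] : Prop :=
  ∀ c : ClassGroup (𝓞 M), (∃ j, c ^ (p ^ j) = 1) → c ∈ Subgroup.closure
    {c | (∀ g : M ≃ₐ[N] M, Fixes (g : M →+* M) c) ∨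
      ∃ w : HeightOneSpectrum (𝓞 F), RamBelow k T w ∧ ∀ (g : M ≃ₐ[N] M) (h : F ≃ₐ[k] F),
        (∀ x, g (algebraMap F M x) = algebraMap F M (h x)) → Dec w (h : F →+* F) →
          Fixes (g : M →+* M) c}

/-- The relation `∑ a_i v_p(#Cl(M_i)[p^e]) = 0` for all `e`, and `∑ a_i v_p(h(M_i)) = 0`. -/
def ClassRelation {ι : Type} [Fintype ι] (p : ℕ) (a : ι → ℤ) (M : ι → Type) [∀ i, Field (M i)]
    [∀ i, NumberField (M i)] : Prop :=
  (∀ e : ℕ, ∑ i, a i * (padicValNat p
      (Nat.card {c : ClassGroup (𝓞 (M i)) // c ^ (p ^ e) = 1}) : ℤ) = 0) ∧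
    ∑ i, a i * (padicValNat p (classNumber (M i)) : ℤ) = 0

/-- (A) The theorem for the prime `p` and all base fields. -/
def OverAll (p : ℕ) : Prop :=
  ∀ (k T F B : Type) [Field k] [NumberField k] [Field T] [NumberField T] [Field F] [NumberField F]
    [Field B] [NumberField B] [Algebra k T] [Algebra k F] [Algebra k B] [Algebra T B] [Algebra F B]
    [IsScalarTower k T B] [IsScalarTower k F B],
    IsGalois k T → IsGalois k F →
    IntermediateField.adjoin F (Set.range (algebraMap T B)) = ⊤ →
    (∃ n, Module.finrank k T = p ^ n) → ¬ p ∣ Module.finrank k F → Gen p k T F k F →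
    Gen p k T F T B ∧
    ∀ (ι : Type) [Fintype ι] (K : ι → IntermediateField k F) (a : ι → ℤ), ∑ i, a i = 0 →
      (∀ w : HeightOneSpectrum (𝓞 F), RamBelow k T w →
        ∀ x : F ≃ₐ[k] F, ∑ i, a i * pairs (K i) w x = 0) →
      ClassRelation p a
        fun i => ↥(IntermediateField.adjoin T (algebraMap F B '' (K i : Set F)))

/-- `E` is the `n`-th layer of the cyclotomic `ℤ_p`-extension of `ℚ`. -/
def IsLayer (p n : ℕ) (E : IntermediateField ℚ ℂ) : Prop :=
  E ≤ IntermediateField.adjoin ℚ {z : ℂ | z ^ (p ^ (n + 2)) = 1} ∧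
    Module.finrank ℚ E = p ^ n ∧ ∀ x ∈ E, starRingEnd ℂ x = x

/-- `g` is a Frobenius element at a prime of `F` above `p`. -/
def IsFrob (p : ℕ) (F : IntermediateField ℚ ℂ) [NumberField F] (g : F ≃+* F) : Prop :=
  ∃ Q : Ideal (𝓞 F), Q.IsPrime ∧ (p : 𝓞 F) ∈ Q ∧ ∀ x : 𝓞 F, ∃ y ∈ Q, (y : F) = g x - (x : F) ^ p

/-- The powers of `g` kill the combination of the permutation characters: for each `x` the sum of
`a_i #{(σ, d) : σ : K_i → F, d a power of g, x ∘ d ∘ σ = σ}` is zero. -/
def Kills {ι : Type} [Fintype ι] (F : IntermediateField ℚ ℂ) (K : ι → IntermediateField ℚ ℂ)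
    (a : ι → ℤ) (g : F ≃+* F) : Prop :=
  ∀ x : F ≃+* F, ∑ i, a i * (Nat.card {z : (K i →+* F) × (F ≃+* F) //
    z.2 ∈ Subgroup.zpowers g ∧ ∀ y, x (z.2 (z.1 y)) = z.1 y} : ℤ) = 0

/-- The prime number `l` has a Frobenius element in `F` whose powers kill the combination. -/
def Good {ι : Type} [Fintype ι] (F : IntermediateField ℚ ℂ) [NumberField F]
    (K : ι → IntermediateField ℚ ℂ) (a : ι → ℤ) (l : ℕ) : Prop :=
  ∃ g, Kills F K a g ∧ IsFrob l F g

/-- The class number relation for the fields `K_i T`. -/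
def RelationOver {ι : Type} [Fintype ι] (p : ℕ) (K : ι → IntermediateField ℚ ℂ) (a : ι → ℤ)
    (T : IntermediateField ℚ ℂ) : Prop :=
  ∀ [∀ i, NumberField ↥(K i ⊔ T)], ClassRelation p a fun i => ↥(K i ⊔ T)

/-- The set of the primes `p` with the property `P` has natural density `δ` among all primes. -/
def HasDensity (P : ℕ → Prop) (δ : ℝ) : Prop :=
  Tendsto (fun N : ℕ => (Nat.card {p : ℕ // p.Prime ∧ p ≤ N ∧ P p} : ℝ) /
    (Nat.primeCounting N : ℝ)) atTop (𝓝 δ)

/-- (B) The theorem over `ℚ`: the density of the good primes; the relation for almost all primes `p`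
and all Galois `T / ℚ` of degree a power of `p` which are ramified only at good primes; the relation
for almost all good primes `p` and the layers of the cyclotomic `ℤ_p`-extension. -/
def OverRat {ι : Type} [Fintype ι] (F : IntermediateField ℚ ℂ) [NumberField F]
    (K : ι → IntermediateField ℚ ℂ) (a : ι → ℤ) : Prop :=
  HasDensity (Good F K a) ((Nat.card {g : F ≃+* F // Kills F K a g} : ℝ) / Module.finrank ℚ F) ∧
  ∃ b : ℕ, ∀ p : ℕ, p.Prime → b < p →
    (∀ (T : IntermediateField ℚ ℂ) [NumberField T], IsGalois ℚ T →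
      (∃ n, Module.finrank ℚ T = p ^ n) →
      (∀ l : ℕ, l.Prime → (∃ u : HeightOneSpectrum (𝓞 T), (l : 𝓞 T) ∈ u.asIdeal ^ 2) →
        Good F K a l) →
      RelationOver p K a T) ∧
    (Good F K a p → ∀ (n : ℕ) (E : IntermediateField ℚ ℂ), IsLayer p n E → RelationOver p K a E)

theorem dec_iff {k F : Type} [Field k] [NumberField k] [Field F] [NumberField F] [Algebra k F]
    (w : HeightOneSpectrum (𝓞 F)) (g : F ≃ₐ[k] F) :
    Dec w (g : F →+* F) ↔ Pool.Agent.TeamU.act g w = w := by
  constructor
  · intro h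
    apply HeightOneSpectrum.ext
    rw [← Pool.Agent.H515.CH.map_act]
    exact h
  · intro h
    have h1 := congrArg HeightOneSpectrum.asIdeal h
    rw [← Pool.Agent.H515.CH.map_act] at h1
    exact h1

theorem ram_iff {k T F : Type} [Field k] [NumberField k] [Field T] [NumberField T] [Field F]
    [NumberField F] [Algebra k T] [Algebra k F] (w : HeightOneSpectrum (𝓞 F)) :
    RamBelow k T w ↔ ¬ Pool.Agent.Q92.AR.Unramified T (w.under (𝓞 k)) := by
  unfold Pool.Agent.Q92.AR.Unramified
  push Not
  constructor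
  · rintro ⟨u, h1, h2⟩
    exact ⟨u, HeightOneSpectrum.ext h1, h2⟩
  · rintro ⟨u, h1, h2⟩
    exact ⟨u, congrArg HeightOneSpectrum.asIdeal h1, h2⟩

theorem fin_of_le {K F : IntermediateField ℚ ℂ} [NumberField F] (h : K ≤ F) : NumberField K :=
  Pool.Agent.H515.CH.nf (FiniteDimensional.of_injective (IntermediateField.inclusion h).toLinearMap
    (IntermediateField.inclusion h).injective)

theorem classRelation {ι : Type} [Fintype ι] {p : ℕ} (hp : p.Prime) {a : ι → ℤ} {M : ι → Type}
    [∀ i, Field (M i)] [∀ i, NumberField (M i)]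
    (h : ∀ e : ℕ, ∑ i, a i * (padicValNat p
      (Nat.card {c : ClassGroup (𝓞 (M i)) // c ^ (p ^ e) = 1}) : ℤ) = 0) :
    ClassRelation p a M := by
  refine ⟨h, ?_⟩
  let e := ∑ i, padicValNat p (classNumber (M i))
  have he : ∀ i, padicValNat p (Nat.card (ClassGroup (𝓞 (M i)))) ≤ e := by
    intro i
    have h1 : classNumber (M i) = Nat.card (ClassGroup (𝓞 (M i))) := by
      rw [classNumber, Nat.card_eq_fintype_card]
    rw [← h1]
    exact Finset.single_le_sum (f := fun i => padicValNat p (classNumber (M i)))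
      (fun _ _ => Nat.zero_le _) (Finset.mem_univ i)
  rw [← h e]
  refine Finset.sum_congr rfl fun i _ => ?_
  rw [Pool.Agent.H515.RD.tors_large hp (he i), classNumber, Nat.card_eq_fintype_card]

theorem overAll {p : ℕ} (hp : p.Prime) (hp2 : p ≠ 2) : OverAll p := by
  intro k T F B _ _ _ _ _ _ _ _ _ _ _ _ _ _ _ hT hF htop hdeg hnd hgen
  obtain ⟨n, hn⟩ := hdeg
  have hc : (Module.finrank k F).Coprime p := ((Nat.Prime.coprime_iff_not_dvd hp).2 hnd).symm
  have hcl : ∀ x : Pool.Agent.H515.CH.DC F, (∃ j, p ^ j • x = 0) → x ∈ AddSubgroup.closure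
      {y : Pool.Agent.H515.CH.DC F | (∀ g : F ≃ₐ[k] F, Pool.Agent.H515.CH.sb g y = y) ∨
        ∃ w : HeightOneSpectrum (𝓞 F), ¬ Pool.Agent.Q92.AR.Unramified T (w.under (𝓞 k)) ∧
          ∀ g : F ≃ₐ[k] F, Pool.Agent.TeamU.act g w = w → Pool.Agent.H515.CH.sb g y = y} := by
    intro x hx
    obtain ⟨c, rfl⟩ := Pool.Agent.H515.RD.dcl_surj x
    have h1 : ∃ j, c ^ (p ^ j) = 1 := by
      obtain ⟨j, hj⟩ := hx
      refine ⟨j, Pool.Agent.H515.RD.dcl_inj ?_⟩
      rw [Pool.Agent.H515.RD.dcl_pow, hj, Pool.Agent.H515.RD.dcl_one]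
    refine (Pool.Agent.H515.RD.clo (fun c => ?_) c).1 (hgen c h1)
    refine or_congr (forall_congr' fun g => Pool.Agent.H515.RD.fix_iff g c)
      (exists_congr fun w => and_congr (ram_iff w) ?_)
    constructor
    · intro h g hg
      exact (Pool.Agent.H515.RD.fix_iff g c).1 (h g g (fun x => rfl) ((dec_iff w g).2 hg))
    · intro h g g' hgg' hd
      have e1 : g = g' := AlgEquiv.ext hgg'
      rw [e1]
      exact (Pool.Agent.H515.RD.fix_iff g' c).2 (h g' ((dec_iff w g').1 hd))
  refine ⟨?_, ?_⟩
  · intro c hcj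
    obtain ⟨j, hj⟩ := hcj
    have h2 := Pool.Agent.H515.RD.gen_types hp hp2 htop hn hc hcl j (Pool.Agent.H515.RD.dcl c) (by
      rw [← Pool.Agent.H515.RD.dcl_pow, hj, Pool.Agent.H515.RD.dcl_one])
    refine (Pool.Agent.H515.RD.clo (fun c => ?_) c).2 h2
    refine or_congr (forall_congr' fun g => Pool.Agent.H515.RD.fix_iff g c)
      (exists_congr fun w => and_congr (ram_iff w) ?_)
    refine forall_congr' fun g => forall_congr' fun h => forall_congr' fun _ => ?_
    rw [dec_iff]
    exact imp_congr Iff.rfl (Pool.Agent.H515.RD.fix_iff g c)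
  · intro ι _ K a ha0 ha
    refine classRelation hp fun e => ?_
    refine Pool.Agent.H515.RD.rel_types hp hp2 htop hn hc (fun i => K i)
      (fun i => ↥(IntermediateField.adjoin T (algebraMap F B '' (K i : Set F)))) ?_ a ha0 ?_ hcl e
    · intro i g
      constructor
      · intro h x
        exact h ⟨_, IntermediateField.subset_adjoin T _ ⟨x, x.2, rfl⟩⟩
      · intro h x
        have h1 : IntermediateField.adjoin T (algebraMap F B '' (K i : Set F)) ≤
            IntermediateField.fixedField (Subgroup.zpowers g) := by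
          rw [IntermediateField.adjoin_le_iff]
          rintro _ ⟨y, hy, rfl⟩
          change _ ∈ IntermediateField.fixedField (Subgroup.zpowers g)
          rw [IntermediateField.mem_fixedField_iff]
          rintro _ ⟨j, rfl⟩
          have h5 : g ∈ MulAction.stabilizer (B ≃ₐ[T] B) (algebraMap F B y) := h ⟨y, hy⟩
          exact (MulAction.stabilizer (B ≃ₐ[T] B) (algebraMap F B y)).zpow_mem h5 j
        have h2 := h1 x.2
        rw [IntermediateField.mem_fixedField_iff] at h2
        exact h2 g (Subgroup.mem_zpowers g)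
    · intro w hw x
      rw [← ha w ((ram_iff w).2 hw) x]
      refine Finset.sum_congr rfl fun i _ => ?_
      unfold pairs
      congr 2
      refine Nat.card_congr (Equiv.subtypeEquivRight fun z => and_congr ?_ Iff.rfl)
      exact (dec_iff w z.2).symm

theorem overRat {ι : Type} [Fintype ι] (F : IntermediateField ℚ ℂ) [NumberField F]
    (hF : IsGalois ℚ F) (K : ι → IntermediateField ℚ ℂ) (hK : ∀ i, K i ≤ F) (a : ι → ℤ)
    (ha0 : ∑ i, a i = 0) : OverRat F K a := by
  have hKf : ∀ i, NumberField (K i) := fun i => fin_of_le (hK i)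
  have hkill : ∀ g, Kills F K a g ↔ Pool.Agent.H515.RD.RelF (F := F) (fun i => K i) a g :=
    fun g => Iff.rfl
  refine ⟨?_, 2 + classNumber F + Module.finrank ℚ F, fun p hp hb => ?_⟩
  · exact Pool.Agent.H515.EQ.dens_frob F {g | Kills F K a g}
      fun g hg τ => Pool.Agent.H515.RD.relF_conj (F := F) (fun i => K i) a hg τ
  · have hcn : ¬ p ∣ classNumber F := fun h => by
      have := Nat.le_of_dvd (classNumber_pos F) h
      omega
    have hpos : 0 < Module.finrank ℚ F := Module.finrank_pos
    have hcop : (Module.finrank ℚ F).Coprime p :=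
      (Nat.coprime_of_lt_prime hpos.ne' (by omega) hp).symm
    have hmain : ∀ (T : IntermediateField ℚ ℂ) [NumberField T], IsGalois ℚ T →
        (∃ n, Module.finrank ℚ T = p ^ n) →
        (∀ l : ℕ, l.Prime → (∃ u : HeightOneSpectrum (𝓞 T), (l : 𝓞 T) ∈ u.asIdeal ^ 2) →
          Good F K a l) → RelationOver p K a T := by
      intro T _ hT hdeg hram _
      obtain ⟨n, hn⟩ := hdeg
      refine classRelation hp fun e => ?_
      exact Pool.Agent.H515.RD.rel_Q hp (by omega) hF hT hn hcop hcn K hK a ha0 hram e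
    refine ⟨hmain, fun hg n E hE _ => ?_⟩
    have hE' : Pool.Agent.H515.CH.IsLayer p n E := hE
    have hN : p ^ (n + 2) ≠ 0 := pow_ne_zero _ hp.ne_zero
    have hEf : NumberField E := Pool.Agent.H515.CH.nf (Pool.Agent.H515.CH.sub_fin hN hE.1)
    refine hmain E (Pool.Agent.H515.CH.sub_gal hN hE.1) ⟨n, hE.2.1⟩ fun l hl hu => ?_
    rw [Pool.Agent.H515.RD.ram_layer hp hE' hl hu]
    exact hg

theorem result :
    (∀ p : ℕ, p.Prime → p ≠ 2 → OverAll p) ∧
    ∀ (ι : Type) [Fintype ι] (F : IntermediateField ℚ ℂ) [NumberField F], IsGalois ℚ F →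
      ∀ (K : ι → IntermediateField ℚ ℂ), (∀ i, K i ≤ F) → ∀ a : ι → ℤ, ∑ i, a i = 0 →
        OverRat F K a :=
  ⟨fun _ hp hp2 => overAll hp hp2, fun _ _ F _ hF K hK a ha0 => overRat F hF K hK a ha0⟩

end Pool.Agent.Results.MP_a4986b_nt.DecompositionRelations
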