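import Pool.Agent.H516.Unif
import Pool.Agent.H516.TowerEx

/-!
# A uniform upper bound for the Iwasawa `μ`-invariant

Let `F` be a number field of degree `n` with discriminant `D` and `p > n` an odd prime. The proof
gives, for all `δ > 0`,

`(p-1) μ log p ≤ (n-1) log p + (1+δ) ((p/2) log |D| + (p-1) n log p) + p n log (1 + 1/δ)`

(`Pool.Agent.H516.growth_first`). It has the following parts, all of which are proved here without
class field theory as a hypothesis.

* The characters of the Galois groups of the layers `F_m` which are unramified and of `p`-power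
  order form a tower of modules over `ℤ[X]`. All primes above `p` are totally ramified in the
  tower since `p > n`, which gives `(p^m - 1) μ ≤ e_m + m (n - 1)`.
* The first inequality of class field theory for unramified cyclic extensions of odd degree
  (with the Herbrand quotient of the units and the norm index), and the pole of the Dedekind zeta
  functions, show that the degree `p^(e_m)` divides the class number of `F_m`.
* The class number of `F_1` is bounded by its discriminant (Minkowski's bound and Rankin's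
  method), and the discriminant of `F_1` is at most `|D|^p p^(2(p-1)n)`.
-/

set_option autoImplicit false

namespace Pool.Agent.Results.MP_a4986b_nt.UniformMuBound

open scoped Pointwise

/-- the algebraic numbers -/
abbrev Qbar := AlgebraicClosure ℚ

/-- `σ` lies in the inertia group of the valuation ring `A` -/
def InInertia (A : ValuationSubring Qbar) (σ : Gal(Qbar/ℚ)) : Prop :=
  σ • A = A ∧ ∀ x ∈ A, σ x - x ∈ A.nonunits

/-- `M / E` is a finite abelian extension of degree `p ^ k`, unramified at all finite primes: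
all inertia groups act trivially on `M` -/
structure UnrAbelian (p : ℕ) (E M : IntermediateField ℚ Qbar) (k : ℕ) : Prop where
  le : E ≤ M
  finite : FiniteDimensional ℚ M
  galois : ∀ σ ∈ E.fixingSubgroup, ∀ x ∈ M, σ x ∈ M
  abelian : ∀ σ ∈ E.fixingSubgroup, ∀ τ ∈ E.fixingSubgroup, ∀ x ∈ M, σ (τ x) = τ (σ x)
  unramified : ∀ A, ∀ σ ∈ E.fixingSubgroup, InInertia A σ → ∀ x ∈ M, σ x = x
  degree : Module.finrank ℚ M = p ^ k * Module.finrank ℚ E

/-- the maximal unramified abelian `p`-extension (the `p`-Hilbert class field) of `E` has degree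
`p ^ e` over `E` -/
def HilbertDegree (p : ℕ) (E : IntermediateField ℚ Qbar) (e : ℕ) : Prop :=
  ∃ M, UnrAbelian p E M e ∧ ∀ M' k, UnrAbelian p E M' k → M' ≤ M

/-- `R m` is the `m`-th layer of the cyclotomic `ℤ_p`-extension of `ℚ` (for odd `p`) -/
def IsCyclotomicTower (p : ℕ) (R : ℕ → IntermediateField ℚ Qbar) : Prop :=
  ∀ m, Module.finrank ℚ (R m) = p ^ m ∧
    R m ≤ IntermediateField.adjoin ℚ {ζ : Qbar | ζ ^ p ^ (m + 1) = 1}

/-- `μ` is the Iwasawa `μ`-invariant of the cyclotomic `ℤ_p`-extension of `F`: the degree of the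
`p`-Hilbert class field of the `m`-th layer `F R_m` is `p ^ (e m)`, where `e m = μ p ^ m + O(m)` -/
def IsMu (p : ℕ) (F : IntermediateField ℚ Qbar) (μ : ℕ) : Prop :=
  ∃ (R : ℕ → IntermediateField ℚ Qbar) (e : ℕ → ℕ) (C : ℕ), IsCyclotomicTower p R ∧
    ∀ m, HilbertDegree p (F ⊔ R m) (e m) ∧ e m ≤ μ * p ^ m + C * (m + 1) ∧
      μ * p ^ m ≤ e m + C * (m + 1)

theorem unrAbelian_iff {p : ℕ} {E M : IntermediateField ℚ Qbar} {k : ℕ} :
    Pool.Agent.H516.UnrAb p E M k ↔ UnrAbelian p E M k := by
  constructor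
  · intro h
    exact ⟨h.le, h.fin, h.stable, h.comm, fun A σ hσ hA x hx => h.unr A σ hA hσ x hx, h.deg⟩
  · intro h
    exact ⟨h.le, h.finite, h.galois, h.abelian,
      fun A σ hA hσ x hx => h.unramified A σ hσ hA x hx, h.degree⟩

theorem hilbertDegree_iff {p : ℕ} {E : IntermediateField ℚ Qbar} {e : ℕ} :
    Pool.Agent.H516.HilbExp p E e ↔ HilbertDegree p E e := by
  unfold Pool.Agent.H516.HilbExp HilbertDegree
  simp only [unrAbelian_iff]

/-- **A uniform bound for the `μ`-invariant.** For all `n` and `ε > 0` there is `P₀` such that, for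
all primes `p ≥ P₀` and all number fields `F` of degree `n` and discriminant `D`, the `μ`-invariant
of the cyclotomic `ℤ_p`-extension of `F` is at most `(1 + ε) (n + log |D| / (2 log p))`; it is at
most `n`, if moreover `|D| ≤ p`. -/
theorem result (n : ℕ) (ε : ℝ) (hε : 0 < ε) : ∃ P₀ : ℕ, ∀ p : ℕ, p.Prime → P₀ ≤ p →
    ∀ (F : IntermediateField ℚ Qbar) [NumberField F], Module.finrank ℚ F = n →
      ∃ μ : ℕ, IsMu p F μ ∧
        (μ : ℝ) ≤ (1 + ε) * (n + Real.log |(NumberField.discr F : ℝ)| / (2 * Real.log p)) ∧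
        (|NumberField.discr F| ≤ p → μ ≤ n) := by
  obtain ⟨P₁, h₁⟩ := Pool.Agent.H516.asym hε
  obtain ⟨P₂, h₂⟩ := Pool.Agent.H516.asym_int n
  refine ⟨P₁ + P₂ + n + 3, fun p hp hpP F _ hF => ?_⟩
  have hpf : Fact p.Prime := ⟨hp⟩
  have hp2 : p ≠ 2 := by omega
  obtain ⟨R, hR⟩ := Pool.Agent.H516.exists_cycTower hp2
  obtain ⟨e, μ, he, ⟨C, hC⟩, hδ⟩ := Pool.Agent.H516.growth_first hp2 hR (F := F)
    (hF.trans_lt (by omega))
  rw [hF] at hδ
  have hD1 : (1 : ℝ) ≤ |(NumberField.discr F : ℝ)| := by
    have h : 1 ≤ |NumberField.discr F| := Int.one_le_abs (NumberField.discr_ne_zero F)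
    exact_mod_cast h
  have hD0 : 0 ≤ Real.log |(NumberField.discr F : ℝ)| := Real.log_nonneg hD1
  refine ⟨μ, ⟨R, e, C, hR, fun m => ⟨hilbertDegree_iff.1 (he m), hC m⟩⟩, ?_, fun hDp => ?_⟩
  · exact (h₁ p (by omega)).2 n μ _ hD0 hδ
  · refine h₂ p (by omega) μ _ hD0 ?_ hδ
    refine Real.log_le_log (by linarith) ?_
    exact_mod_cast hDp

end Pool.Agent.Results.MP_a4986b_nt.UniformMuBound
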